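import Mathlib

set_option autoImplicit false
open Finset Polynomial

namespace Pool.Agent.H.MP_0c110c_nt

lemma skew_det {N : ℕ} (M : Matrix (Fin N) (Fin N) ℝ) (h : ∀ j k, M k j = -M j k) :
    0 ≤ M.det := by
  by_contra hn
  push Not at hn
  have hc : Continuous fun t : ℝ => (t • (1 : Matrix (Fin N) (Fin N) ℝ) + (1 - t) • M).det :=
    Continuous.matrix_det (by fun_prop)
  obtain ⟨t, ht, h0⟩ := intermediate_value_Icc zero_le_one hc.continuousOn
    (show (0 : ℝ) ∈ _ from ⟨by simpa using hn.le, by simp⟩)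
  obtain ⟨v, hv, h1⟩ := Matrix.exists_mulVec_eq_zero_iff.2 h0
  have h2 : v ⬝ᵥ M.mulVec v = 0 := by
    have : v ⬝ᵥ M.mulVec v = -(v ⬝ᵥ M.mulVec v) := by
      simp only [dotProduct, Matrix.mulVec, mul_sum, ← sum_neg_distrib]
      rw [sum_comm]
      exact sum_congr rfl fun j _ => sum_congr rfl fun k _ => by rw [h]; ring
    linarith
  have h3 := congrArg (v ⬝ᵥ ·) h1
  simp only [Matrix.add_mulVec, Matrix.smul_mulVec, Matrix.one_mulVec, dotProduct_add,
    dotProduct_smul, h2, smul_eq_mul, mul_zero, add_zero, dotProduct_zero, mul_eq_zero,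
    dotProduct_self_eq_zero, hv, or_false] at h3
  simp [h3] at h0
  exact hn.ne h0

lemma lattice (R : Subring ℂ) (N : ℕ) (X : ℤ → ℤ) (hX : ∀ k, X (-k) = -X k) (ev y : ℕ → ℂ)
    (hev : ∀ l, ev l ∈ R) (hy : ∀ l, y l ∈ R) (e1 : ev (N + 1) = 1) (y1 : y N * y N = 1) (κ : ℂ)
    (r1 : ∀ j : ℤ, 0 ≤ j → j ≤ N + 1 → ∑ l ∈ range (N + 2), ev l * X (l - j) = κ)
    (r2 : ∀ j : ℤ, -1 ≤ j → j ≤ N → ∑ l ∈ range (N + 1), y l * X (l - j) =
      if j = -1 then 1 else 0) :
    ∃ r ∈ R, r * ((Matrix.of fun j k : Fin N => X ((j : ℕ) - (k : ℕ))).det : ℤ) = 1 := by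
  obtain ⟨c, hc⟩ : ∃ c : ℤ → Fin N → ℂ, ∀ k j, c k j = X (k - (j : ℕ)) := ⟨_, fun _ _ => rfl⟩
  obtain ⟨L, hL⟩ : ∃ L : Submodule R (Fin N → ℂ),
    L = Submodule.span R (Set.range fun k : Fin N => c (k : ℕ)) := ⟨_, rfl⟩
  have c0 : ∀ k : ℤ, 0 ≤ k → k < N → c k ∈ L := fun k h1 h2 => by
    rw [hL]
    exact Submodule.subset_span ⟨⟨k.toNat, by omega⟩, by simp [Int.toNat_of_nonneg h1]⟩
  have sm : ∀ a ∈ R, ∀ v ∈ L, a • v ∈ L := fun a ha v hv => L.smul_mem ⟨a, ha⟩ hv
  have top : ∀ (u : ℕ → Fin N → ℂ), (∀ l < N, u l ∈ L) →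
      ∑ l ∈ range (N + 1), y l • u l = 0 → u N ∈ L := fun u hu h => by
    rw [sum_range_succ, add_eq_zero_iff_neg_eq] at h
    have := sm _ (hy N) _ (h ▸ L.neg_mem
      (L.sum_mem fun l hl => sm _ (hy l) _ (hu l (mem_range.1 hl))))
    rwa [smul_smul, y1, one_smul] at this
  have c1 : c N ∈ L := top (fun l => c l) (fun l hl => c0 _ (by omega) (by omega)) (by
    funext j
    simpa [hc, Finset.sum_apply, show ((j : ℕ) : ℤ) ≠ -1 by omega] using r2 (j : ℕ) (by omega) (by omega))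
  have c2 : c (-1) ∈ L := by
    have := top (fun l => c (N - 1 - l)) (fun l hl => c0 _ (by omega) (by omega)) (by
      funext j
      have h := r2 (N - 1 - (j : ℕ)) (by omega) (by omega)
      rw [if_neg (by omega), ← neg_eq_zero, ← sum_neg_distrib] at h
      rw [Finset.sum_apply]
      refine Eq.trans (sum_congr rfl fun l _ => ?_) h
      rw [Pi.smul_apply, hc, smul_eq_mul, ← mul_neg, ← Int.cast_neg, ← hX]
      congr 3; ring)
    simpa using this
  have c3 : ∀ k : ℤ, -1 ≤ k → k ≤ N → c k ∈ L := fun k h1 h2 => by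
    rcases h1.eq_or_lt with rfl | h1
    · exact c2
    rcases h2.eq_or_lt with rfl | h2
    · exact c1
    · exact c0 k (by omega) h2
  have c4 : c (N + 1) ∈ L := by
    have h : ∑ l ∈ range (N + 2), ev l • c l = ∑ l ∈ range (N + 2), ev l • c (l - 1) := by
      funext j
      have h1 := r1 (j : ℕ) (by omega) (by omega)
      have h2 := r1 ((j : ℕ) + 1) (by omega) (by omega)
      simp only [Finset.sum_apply, Pi.smul_apply, hc, smul_eq_mul, h1, ← h2]
      exact sum_congr rfl fun l _ => by congr 3; ring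
    rw [sum_range_succ, e1, one_smul, ← eq_sub_iff_add_eq'] at h
    push_cast at h
    rw [h]
    exact L.sub_mem (L.sum_mem fun l hl => sm _ (hev l) _
      (c3 _ (by omega) (by have := mem_range.1 hl; omega)))
      (L.sum_mem fun l hl => sm _ (hev l) _ (c3 _ (by omega) (by have := mem_range.1 hl; omega)))
  have d0 : (fun j : Fin N => if (j : ℕ) = 0 then (1 : ℂ) else 0) ∈ L := by
    have h : (fun j : Fin N => if (j : ℕ) = 0 then (1 : ℂ) else 0) =
        ∑ l ∈ range (N + 1), y l • c (l + 1) := by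
      funext j
      have h1 := r2 ((j : ℕ) - 1) (by omega) (by omega)
      simp only [Finset.sum_apply, Pi.smul_apply, hc, smul_eq_mul]
      refine Eq.trans (if_congr (by omega) rfl rfl) (h1.symm.trans ?_)
      exact sum_congr rfl fun l _ => by congr 3; ring
    rw [h]
    refine L.sum_mem fun l hl => sm _ (hy l) _ ?_
    rcases (Nat.lt_succ_iff.1 (mem_range.1 hl)).eq_or_lt with rfl | h1
    · exact c4
    · exact c3 _ (by omega) (by omega)
  have sh : ∀ v ∈ L, (fun j : Fin N => if (j : ℕ) = 0 then 0 else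
      v ⟨j - 1, (Nat.sub_le _ _).trans_lt j.2⟩) ∈ L := fun v hv => by
    rw [hL] at hv
    induction hv using Submodule.span_induction with
    | mem v hv =>
      obtain ⟨k, rfl⟩ := hv
      convert L.sub_mem (c3 ((k : ℕ) + 1) (by omega) (by omega))
        (sm _ (intCast_mem R (X ((k : ℕ) + 1))) _ d0) using 1
      funext j
      by_cases h : (j : ℕ) = 0
      · simp [h, hc]
      · simp only [h, hc, if_false, Pi.sub_apply, Pi.smul_apply, smul_zero, sub_zero]
        congr 2; omega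
    | zero => convert L.zero_mem using 1; funext j; simp
    | add u v _ _ hu hv => convert L.add_mem hu hv using 1; funext j; simp; split_ifs <;> simp
    | smul a v _ hv => convert L.smul_mem a hv using 1; funext j; simp
  have d1 : ∀ i : ℕ, (fun j : Fin N => if (j : ℕ) = i then (1 : ℂ) else 0) ∈ L := fun i => by
    induction i with
    | zero => exact d0
    | succ i ih =>
      convert sh _ ih using 2 with j
      dsimp only
      split_ifs <;> first | rfl | omega
  simp only [hL, Submodule.mem_span_range_iff_exists_fun] at d1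
  choose x hx using d1
  refine ⟨((Matrix.of fun i k : Fin N => x i k).det : R), Subtype.property _, ?_⟩
  have h := congrArg Matrix.det (show (R.subtype.mapMatrix (Matrix.of fun i k : Fin N => x i k)) *
      ((Int.castRingHom ℂ).mapMatrix (Matrix.of fun j k : Fin N => X ((j : ℕ) - (k : ℕ)))) = 1 by
    ext i j
    have := congrFun (hx i) j
    simp only [Finset.sum_apply, Pi.smul_apply, hc, Fin.val_inj] at this
    simp only [Matrix.mul_apply, Matrix.one_apply, eq_comm (a := i), ← this]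
    rfl)
  rwa [Matrix.det_mul, ← RingHom.map_det, ← RingHom.map_det, Matrix.det_one] at h

lemma int_of_rat {q : ℚ} (h : IsIntegral ℤ (q : ℂ)) : ∃ z : ℤ, (z : ℚ) = q :=
  IsIntegrallyClosed.isIntegral_iff.1 ((isIntegral_algebraMap_iff
    (algebraMap ℚ ℂ).injective).1 h)

lemma fin (N : ℕ) (X : ℤ → ℤ) (hX : ∀ k, X (-k) = -X k) (ev y : ℕ → ℂ) {p : ℕ} (hp : p.Prime)
    (hev : ∀ l, IsIntegral ℤ (ev l)) (hy : ∀ l, IsIntegral ℤ (p * y l ^ 2)) (e1 : ev (N + 1) = 1)
    (y0 : ∀ l, N < l → y l = 0) (y1 : y N * y N = 1) (κ : ℂ)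
    (r1 : ∀ j : ℤ, 0 ≤ j → j ≤ N + 1 → ∑ l ∈ range (N + 2), ev l * X (l - j) = κ)
    (r2 : ∀ j : ℤ, -1 ≤ j → j ≤ N → ∑ l ∈ range (N + 1), y l * X (l - j) =
      if j = -1 then 1 else 0) :
    (Matrix.of fun j k : Fin N => X ((j : ℕ) - (k : ℕ))).det = 1 := by
  obtain ⟨r, -, hr⟩ := lattice ⊤ N X hX ev y (fun _ => trivial) (fun _ => trivial) e1 y1 κ r1 r2
  have key := fun h => lattice (integralClosure ℤ ℂ).toSubring N X hX ev y hev h e1 y1 κ r1 r2
  have hpos := skew_det ((Int.castRingHom ℝ).mapMatrix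
    (Matrix.of fun j k : Fin N => X ((j : ℕ) - (k : ℕ)))) fun j k => by
      simp [← Int.cast_neg, ← hX]
  rw [← RingHom.map_det] at hpos
  obtain ⟨M, hM⟩ : ∃ M, M = Matrix.of fun j k : Fin N => X ((j : ℕ) - (k : ℕ)) := ⟨_, rfl⟩
  rw [← hM] at hr key hpos ⊢
  have hd : (M.det : ℂ) ≠ 0 := right_ne_zero_of_mul_eq_one hr
  obtain ⟨u, hu⟩ : ∃ u : ℤ, y N = u := by
    rcases mul_self_eq_one_iff.1 y1 with h | h
    exacts [⟨1, by simp [h]⟩, ⟨-1, by simp [h]⟩]
  have h1 : Matrix.vecMul (fun k : Fin N => y k) ((Int.castRingHom ℂ).mapMatrix M) =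
      fun j : Fin N => ((-(u * X (N - (j : ℕ))) : ℤ) : ℂ) := by
    funext j
    have h := r2 (j : ℕ) (by omega) (by omega)
    rw [if_neg (by omega), sum_range_succ, sum_range, hu, add_eq_zero_iff_eq_neg] at h
    push_cast
    rw [← h, hM]
    rfl
  have h2 := congrArg (Matrix.vecMul · ((Int.castRingHom ℂ).mapMatrix M.adjugate)) h1
  simp only [Matrix.vecMul_vecMul, ← map_mul, Matrix.mul_adjugate] at h2
  generalize M.det = d at *
  obtain ⟨r, hr, h3⟩ := key fun l => by
    rcases lt_trichotomy l N with h | rfl | h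
    · obtain ⟨z, hz⟩ : ∃ z : ℤ, y l * d = z := by
        refine ⟨∑ j : Fin N, -(u * X (N - (j : ℕ))) * M.adjugate j ⟨l, h⟩, ?_⟩
        have := congrFun h2 ⟨l, h⟩
        simpa [Matrix.vecMul, dotProduct, Matrix.one_apply, Matrix.intCast_apply] using this
      obtain ⟨q, hq⟩ : ∃ q : ℚ, y l = q := ⟨z / d, by push_cast; rw [eq_div_iff hd, hz]⟩
      obtain ⟨w, hw⟩ := int_of_rat (q := p * q ^ 2) (by simpa [hq] using hy l)
      have h4 : (q.den : ℤ) * q.den ∣ p * q.num ^ 2 := ⟨w, by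
        have := q.num_div_den
        have h5 : (q.den : ℚ) ≠ 0 := by simp
        rw [div_eq_iff h5] at this
        apply Int.cast_injective (α := ℚ)
        push_cast
        rw [hw, this]; ring⟩
      have h5 : IsCoprime (q.den : ℤ) q.num := by
        rw [Int.isCoprime_iff_gcd_eq_one, Int.gcd_comm]; exact q.reduced
      have h6 := (h5.mul_left h5).pow_right.dvd_of_dvd_mul_right h4
      have h7 : q.den = 1 := Nat.isUnit_iff.1 (hp.squarefree _ (by exact_mod_cast h6))
      rw [hq, ← Rat.coe_int_num_of_den_eq_one h7, Rat.cast_intCast]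
      exact intCast_mem _ _
    · rw [hu]; exact intCast_mem _ _
    · rw [y0 l h]; exact zero_mem _
  obtain ⟨z, hz⟩ := int_of_rat (q := (d : ℚ)⁻¹) (by
    push_cast
    rw [← eq_inv_of_mul_eq_one_left h3]; exact hr)
  have h4 : d * z = 1 := by
    apply Int.cast_injective (α := ℚ)
    push_cast
    rw [hz, mul_inv_cancel₀ (by exact_mod_cast hd)]
  exact Int.eq_one_of_mul_eq_one_right (by simpa using hpos) h4

end Pool.Agent.H.MP_0c110c_nt
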