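import Pool.Agent.H.MP_0c110c_nt.A

set_option autoImplicit false
open Finset Polynomial

namespace Pool.Agent.H.MP_0c110c_nt

lemma split (f : ℕ → ℂ) (m : ℕ) :
    ∑ k ∈ range (2 * m), f k = ∑ l ∈ range m, (f (2 * l) + f (2 * l + 1)) := by
  induction m with
  | zero => simp
  | succ m ih => rw [mul_add, mul_one, sum_range_succ, sum_range_succ, sum_range_succ, ih, add_assoc]

lemma eval_split {E : ℂ[X]} {m : ℕ} (h : E.natDegree < 2 * m) {u : ℂ} (hu : u * u = 1) (s : ℂ) :
    E.eval (u * s) = ∑ l ∈ range m, E.coeff (2 * l) * s ^ (2 * l) +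
      u * ∑ l ∈ range m, E.coeff (2 * l + 1) * s ^ (2 * l + 1) := by
  rw [eval_eq_sum_range' h, split, mul_sum, ← sum_add_distrib]
  refine sum_congr rfl fun l _ => ?_
  have : u ^ (2 * l) = 1 := by rw [pow_mul, sq, hu, one_pow]
  rw [mul_pow, mul_pow, pow_succ u, this]
  ring

variable {p : ℕ} [Fact p.Prime] {χ : MulChar (ZMod p) ℂ} {ψ : AddChar (ZMod p) ℂ}

lemma four (h1 : χ ≠ 1) (h2 : χ.IsQuadratic) (b : ZMod p) :
    ∑ a, χ a * ψ (a * b) = χ b * gaussSum χ ψ := by
  by_cases hb : b = 0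
  · simp [hb, MulChar.sum_eq_zero_of_ne_one h1, MulChar.map_zero]
  · have := gaussSum_mulShift_eq χ ψ (Units.mk0 b hb)
    rw [h2.inv] at this
    simpa [gaussSum, mul_comm b] using this

lemma rel (h1 : χ ≠ 1) (h2 : χ.IsQuadratic) (hψ : ψ.IsPrimitive) (S : Finset ℕ) (ev od : ℕ → ℂ)
    (H : ∀ a, ∑ l ∈ S, ev l * ψ a ^ (2 * l) + χ a * ∑ l ∈ S, od l * ψ a ^ (2 * l + 1) = 0)
    (m : ZMod p) :
    ∑ l ∈ S, ev l * (if (2 * l : ZMod p) - m = 0 then (p : ℂ) else 0) +
      ∑ l ∈ S, od l * (χ (2 * l + 1 - m) * gaussSum χ ψ) = 0 ∧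
    ∑ l ∈ S, ev l * (χ (2 * l - m) * gaussSum χ ψ) +
      ∑ l ∈ S, od l * (if (2 * l + 1 : ZMod p) - m = 0 then (p : ℂ) else 0) = ∑ l ∈ S, od l := by
  have e : ∀ (a : ZMod p) (k : ℕ), ψ a ^ k * ψ (-(a * m)) = ψ (a * (k - m)) := fun a k => by
    rw [← AddChar.map_nsmul_eq_pow, ← AddChar.map_add_eq_mul, nsmul_eq_mul]
    congr 1; ring
  have f : ∀ b : ZMod p, (if b = 0 then (p : ℂ) else 0) = ∑ a, ψ (a * b) := fun b => by
    rw [AddChar.sum_mulShift b hψ, ZMod.card]; split_ifs <;> simp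
  simp only [f, ← four h1 h2, mul_sum]
  constructor
  · rw [sum_comm, sum_comm (s := S), ← sum_add_distrib]
    refine sum_eq_zero fun a _ => ?_
    have := congrArg (· * ψ (-(a * m))) (H a)
    simp only [add_mul, mul_assoc, sum_mul, mul_sum, e, zero_mul] at this
    push_cast at this
    simpa only [mul_left_comm (χ a)] using this
  · rw [sum_comm, sum_comm (s := S), ← sum_add_distrib, sum_eq_single 0]
    · simp [MulChar.map_zero]
    · intro a _ ha
      have h3 : χ a * χ a = 1 := by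
        rcases h2 a with h | h | h
        · exact absurd (h ▸ (IsUnit.mk0 a ha).map χ) not_isUnit_zero
        all_goals simp [h]
      have := congrArg (χ a * · * ψ (-(a * m))) (H a)
      simp only [mul_add, ← mul_assoc, h3, one_mul, mul_zero, zero_mul] at this
      simp only [add_mul, mul_assoc, sum_mul, mul_sum, e] at this
      push_cast at this
      simpa only [mul_left_comm (χ a)] using this
    · simp

lemma poly (N : ℕ) (hp : p = 2 * N + 3) (h2 : χ.IsQuadratic) (hm : χ (-1) = -1)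
    (hψ : ∀ a, IsIntegral ℤ (ψ a)) : ∃ ev od : ℕ → ℂ, (∀ l, IsIntegral ℤ (ev l)) ∧
      (∀ l, IsIntegral ℤ (od l)) ∧ ev (N + 1) = 1 ∧ od N = -gaussSum χ ψ ∧
      (∀ l, N < l → od l = 0) ∧ ∀ a, ∑ l ∈ range (N + 2), ev l * ψ a ^ (2 * l) +
        χ a * ∑ l ∈ range (N + 2), od l * ψ a ^ (2 * l + 1) = 0 := by
  obtain ⟨r, hr⟩ : ∃ r : (ZMod p)ˣ → ℂ, ∀ a, r a = χ a * ψ a := ⟨_, fun _ => rfl⟩
  have h3 : ∀ a : (ZMod p)ˣ, χ a * χ a = 1 := fun a => by
    rcases h2 a with h | h | h
    · exact absurd (h ▸ a.isUnit.map χ) not_isUnit_zero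
    all_goals simp [h]
  have hc : #(univ : Finset (ZMod p)ˣ) = 2 * N + 2 := by
    rw [card_univ, ZMod.card_units]; omega
  obtain ⟨E, hE⟩ : ∃ E : ℂ[X], E = ∏ a, (X - C (r a)) := ⟨_, rfl⟩
  have hd : E.natDegree = 2 * N + 2 := by rw [hE, natDegree_finsetProd_X_sub_C_eq_card, hc]
  have hi : ∀ k, IsIntegral ℤ (E.coeff k) := by
    rw [hE]
    refine prod_induction _ (fun f : ℂ[X] => ∀ k, IsIntegral ℤ (f.coeff k)) (fun f g hf hg k => ?_)
      (fun k => ?_) fun a _ k => ?_
    · rw [coeff_mul]; exact IsIntegral.sum _ fun x _ => (hf _).mul (hg _)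
    · rw [coeff_one]; split_ifs; exacts [isIntegral_one, isIntegral_zero]
    · rw [coeff_sub, coeff_X, coeff_C, hr]
      refine IsIntegral.sub ?_ ?_ <;> split_ifs
      exacts [isIntegral_one, isIntegral_zero, IsIntegral.mul (by
        rcases h2 a with h | h | h <;> simp [h, isIntegral_zero, isIntegral_one]) (hψ a),
        isIntegral_zero]
  refine ⟨fun l => E.coeff (2 * l), fun l => E.coeff (2 * l + 1), fun l => hi _, fun l => hi _,
    ?_, ?_, fun l hl => coeff_eq_zero_of_natDegree_lt (by omega), fun a => ?_⟩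
  · have : E.Monic := hE ▸ monic_prod_of_monic _ _ fun a _ => monic_X_sub_C _
    exact (congrArg E.coeff (show 2 * (N + 1) = E.natDegree by omega)).trans this.coeff_natDegree
  · have := prod_X_sub_C_coeff_card_pred univ r (by omega)
    rw [hc, ← hE] at this
    refine this.trans (congrArg _ ?_)
    simp only [hr, gaussSum]
    exact sum_bij_ne_zero (fun a _ _ => (a : ZMod p)) (by simp)
      (fun a _ _ b _ _ h => Units.ext h) (fun b _ hb => ⟨Units.mk0 b (by
        rintro rfl; simp [MulChar.map_zero] at hb), mem_univ _, hb, rfl⟩) fun _ _ _ => rfl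
  · by_cases ha : a = 0
    · have e1 := eval_split (m := N + 2) (E := E) (by omega) (mul_one 1) 1
      have e2 := eval_split (m := N + 2) (E := E) (by omega) (u := -1) (by simp) 1
      have p1 : ∏ a : (ZMod p)ˣ, ψ a = 1 := by
        have h5 : (2 : ZMod p) ≠ 0 := fun h => by
          have := Nat.le_of_dvd two_pos ((ZMod.natCast_eq_zero_iff 2 p).1 h); omega
        have h6 := Equiv.prod_comp (Equiv.mulLeft (Units.mk0 2 h5)) fun a : (ZMod p)ˣ => ψ a
        simp only [Equiv.coe_mulLeft, Units.val_mul, Units.val_mk0, two_mul,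
          AddChar.map_add_eq_mul, prod_mul_distrib] at h6
        exact mul_left_cancel₀ (prod_ne_zero_iff.2 fun a _ => (ψ.val_isUnit _).ne_zero)
          (h6.trans (mul_one _).symm)
      have p2 : ∏ a, r a = -1 := by
        simp only [hr, prod_mul_distrib, p1, mul_one, ← map_prod, ← Units.coe_prod,
          FiniteField.prod_univ_units_id_eq_neg_one, Units.val_neg, Units.val_one, hm]
      have p3 : (∏ a, (1 - r a)) * ∏ a, r a = ∏ a, (-1 - r a) := by
        have h7 := prod_neg (s := univ) fun a => -1 - r a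
        rw [hc, (show Even (2 * N + 2) from ⟨N + 1, by ring⟩).neg_one_pow, one_mul] at h7
        rw [← Equiv.prod_comp (Equiv.neg _) fun a => 1 - r a, ← prod_mul_distrib, ← h7]
        refine prod_congr rfl fun a _ => ?_
        have h5 : ψ (-a) * ψ a = 1 := by rw [← AddChar.map_add_eq_mul]; simp
        have h6 : χ (-a) = -χ a := by rw [← neg_one_mul, map_mul, hm, neg_one_mul]
        simp only [hr, Equiv.neg_apply, Units.val_neg, h6]
        linear_combination (ψ (-a) * ψ a) * h3 a + h5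
      simp only [hE, eval_prod, eval_sub, eval_X, eval_C, mul_one, one_pow] at e1 e2
      simp only [ha, AddChar.map_zero_eq_one, MulChar.map_zero, one_pow, mul_one, zero_mul,
        add_zero, hE]
      rw [p2, e1, e2] at p3
      linear_combination (-1 / 2 : ℂ) * p3
    · refine (eval_split (E := E) (by omega) (h3 (Units.mk0 a ha)) _).symm.trans ?_
      rw [hE, eval_prod]
      exact prod_eq_zero (mem_univ (Units.mk0 a ha)) (by simp [hr])

theorem main (p : ℕ) [Fact p.Prime] (N : ℕ) (hp : p = 2 * N + 3) (h4 : p % 4 = 3) :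
    (Matrix.of fun j k : Fin N => legendreSym p ((j : ℕ) - (k : ℕ))).det = 1 := by
  have hr : ringChar (ZMod p) ≠ 2 := by rw [ZMod.ringChar_zmod_n]; omega
  obtain ⟨χ, hχ⟩ : ∃ χ : MulChar (ZMod p) ℂ,
    χ = (quadraticChar (ZMod p)).ringHomComp (Int.castRingHom ℂ) := ⟨_, rfl⟩
  have hl : ∀ k : ℤ, χ k = legendreSym p k := fun k => by rw [hχ]; rfl
  have h1 : χ ≠ 1 := hχ ▸ (MulChar.ringHomComp_ne_one_iff (RingHom.injective_int _)).2
    (quadraticChar_ne_one hr)
  have h2 : χ.IsQuadratic := hχ ▸ (quadraticChar_isQuadratic _).comp _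
  have l1 : legendreSym p (-1) = -1 := by
    rw [legendreSym.at_neg_one (by omega), ZMod.χ₄_nat_three_mod_four h4]
  have hm : χ (-1) = -1 := by simpa [l1] using hl (-1)
  have hψ := ZMod.isPrimitive_stdAddChar p
  obtain ⟨ev, od, i1, i2, e1, e2, e3, H⟩ := poly (ψ := ZMod.stdAddChar) N hp h2 hm fun a =>
    IsIntegral.of_pow (n := p) (by omega) (by
      rw [← AddChar.map_nsmul_eq_pow, nsmul_eq_mul]; simp [isIntegral_one])
  have hg := gaussSum_sq h1 h2 hψ
  have R := rel h1 h2 hψ _ ev od H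
  rw [hm, ZMod.card] at hg
  generalize gaussSum χ ZMod.stdAddChar = τ at *
  have hp0 : (p : ℂ) ≠ 0 := Nat.cast_ne_zero.2 (by omega)
  have hτ : τ ≠ 0 := fun h => hp0 (by simpa [h] using hg)
  have h3 : χ 2 * χ 2 = 1 := by
    have h5 : (2 : ZMod p) ≠ 0 := fun h => by
      have := Nat.le_of_dvd two_pos ((ZMod.natCast_eq_zero_iff 2 p).1 h); omega
    rcases h2 2 with h | h | h
    · exact absurd (h ▸ (IsUnit.mk0 _ h5).map χ) not_isUnit_zero
    all_goals simp [h]
  have dv : ∀ x : ℤ, -(p : ℤ) < 2 * x + 1 → 2 * x + 1 < p → (2 * x + 1 : ZMod p) ≠ 0 :=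
    fun x a b h => by
      have := Int.eq_zero_of_abs_lt_dvd ((ZMod.intCast_zmod_eq_zero_iff_dvd (2 * x + 1) p).1
        (by exact_mod_cast h)) (abs_lt.2 ⟨a, b⟩)
      omega
  refine fin N (legendreSym p) (fun k => by rw [← neg_one_mul, legendreSym.mul, l1, neg_one_mul])
    ev (fun l => χ 2 * od l / τ) (p := p) Fact.out i1 (fun l => ?_) e1 (fun l h => by simp [e3 l h])
    (by rw [e2]; field_simp; linear_combination h3)
    ((∑ l ∈ range (N + 2), od l) * χ 2 / τ) (fun j j0 j1 => ?_) fun j j0 j1 => ?_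
  · rw [show p * (χ 2 * od l / τ) ^ 2 = -od l * od l by
      field_simp
      linear_combination (od l ^ 2 * p) * h3 + od l ^ 2 * hg]
    exact (i2 l).neg.mul (i2 l)
  · have := (R (2 * j)).2
    rw [sum_eq_zero (s := range (N + 2)) (f := fun l => od l * ite _ _ _) fun l hl => by
      rcases (Nat.lt_succ_iff.1 (mem_range.1 hl)).eq_or_lt with rfl | h
      · simp [e3]
      · rw [if_neg, mul_zero]
        convert dv (l - j) (by omega) (by omega) using 2
        push_cast; ring, add_zero] at this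
    rw [← this, eq_div_iff hτ, sum_mul, sum_mul]
    refine sum_congr rfl fun l _ => ?_
    rw [← mul_sub, map_mul, ← hl]
    push_cast
    linear_combination (-ev l * χ (l - j) * τ) * h3
  · have := (R (2 * j + 1)).1
    rw [sum_range_succ _ (N + 1), sum_range_succ _ (N + 1), e3 _ (Nat.lt_succ_self N), zero_mul,
      add_zero, e1, one_mul, sum_eq_zero (s := range (N + 1)) (f := fun l => ev l * ite _ _ _)
        fun l hl => by
          rw [if_neg, mul_zero]
          have := mem_range.1 hl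
          convert dv (l - j - 1) (by omega) (by omega) using 2
          push_cast; ring, zero_add] at this
    have h5 : (if 2 * ((N + 1 : ℕ) : ZMod p) - (2 * j + 1) = 0 then (p : ℂ) else 0) =
        p * if j = -1 then 1 else 0 := by
      by_cases h : j = -1
      · rw [if_pos h, if_pos, mul_one]
        have h6 := congrArg (Nat.cast : ℕ → ZMod p) hp
        rw [ZMod.natCast_self] at h6
        rw [h, h6]
        push_cast; ring
      · rw [if_neg h, if_neg, mul_zero]
        convert dv (N - j) (by omega) (by omega) using 2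
        push_cast; ring
    rw [h5, add_eq_zero_iff_eq_neg, ← sum_neg_distrib] at this
    refine mul_left_cancel₀ hp0 (Eq.trans ?_ this.symm)
    rw [mul_sum]
    refine sum_congr rfl fun l _ => ?_
    rw [add_sub_add_right_eq_sub, ← mul_sub, map_mul, ← hl]
    push_cast
    field_simp
    linear_combination (χ 2 * od l * χ (l - j)) * hg

end Pool.Agent.H.MP_0c110c_nt
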