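import Pool.Agent.H.MP_0c110c_nt.B

set_option autoImplicit false
open Finset Polynomial

namespace Pool.Agent.H.MP_0c110c_nt

lemma low {ι : Type*} (s : Finset ι) (r : ι → ℂ) :
    (∏ a ∈ s, (1 + C (r a) * X)).coeff 0 = 1 ∧ (∏ a ∈ s, (1 + C (r a) * X)).coeff 1 = ∑ a ∈ s, r a ∧
    2 * (∏ a ∈ s, (1 + C (r a) * X)).coeff 2 = (∑ a ∈ s, r a) ^ 2 - ∑ a ∈ s, r a ^ 2 ∧
    6 * (∏ a ∈ s, (1 + C (r a) * X)).coeff 3 =
      (∑ a ∈ s, r a) ^ 3 - 3 * (∑ a ∈ s, r a) * ∑ a ∈ s, r a ^ 2 + 2 * ∑ a ∈ s, r a ^ 3 := by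
  classical
  induction s using Finset.induction_on with
  | empty => simp [coeff_one]
  | insert a s ha ih =>
    obtain ⟨h0, h1, h2, h3⟩ := ih
    simp only [prod_insert ha, sum_insert ha, add_mul, one_mul, mul_assoc, coeff_add, coeff_C_mul]
    rw [coeff_X_mul _ 0, coeff_X_mul _ 1, coeff_X_mul _ 2, coeff_X_mul_zero, h0, h1]
    exact ⟨by ring, by ring, by linear_combination h2, by linear_combination h3 + 3 * r a * h2⟩

lemma units_sum {p : ℕ} [Fact p.Prime] (f : ZMod p → ℂ) :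
    ∑ a : (ZMod p)ˣ, f a = ∑ a, f a - f 0 := by
  rw [eq_sub_iff_add_eq', ← add_sum_erase _ _ (mem_univ (0 : ZMod p))]
  congr 1
  exact sum_bij (fun a _ => (a : ZMod p)) (by simp) (fun a _ b _ h => Units.ext h)
    (fun b hb => ⟨Units.mk0 b (by simpa using hb), mem_univ _, rfl⟩) fun _ _ => rfl

variable {p : ℕ} [Fact p.Prime] {χ : MulChar (ZMod p) ℂ} {ψ : AddChar (ZMod p) ℂ}

lemma poly2 (N : ℕ) (hp : p = 2 * N + 3) (h1 : χ ≠ 1) (h2 : χ.IsQuadratic) (hm : χ (-1) = -1)
    (hψ : ψ.IsPrimitive) : ∃ ev od : ℕ → ℂ, ev 0 = -1 ∧ od 0 = -gaussSum χ ψ ∧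
      2 * ev 1 = p - 1 ∧ 6 * od 1 = (p - 3 - 2 * χ 3) * gaussSum χ ψ ∧
      (∑ l ∈ range (N + 2), od l) ^ 2 = -p ∧ ev (N + 1) = 1 ∧ od N = -gaussSum χ ψ ∧
      (∀ l, N < l → od l = 0) ∧ ∀ a, ∑ l ∈ range (N + 2), ev l * ψ a ^ (2 * l) +
        χ a * ∑ l ∈ range (N + 2), od l * ψ a ^ (2 * l + 1) = 0 := by
  obtain ⟨r, hr⟩ : ∃ r : (ZMod p)ˣ → ℂ, ∀ a, r a = χ a * ψ a := ⟨_, fun _ => rfl⟩
  have h3 : ∀ a : (ZMod p)ˣ, χ a * χ a = 1 := fun a => by
    rcases h2 a with h | h | h
    · exact absurd (h ▸ a.isUnit.map χ) not_isUnit_zero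
    all_goals simp [h]
  have hc : #(univ : Finset (ZMod p)ˣ) = 2 * N + 2 := by
    rw [card_univ, ZMod.card_units]; omega
  obtain ⟨E, hE⟩ : ∃ E : ℂ[X], E = ∏ a, (X - C (r a)) := ⟨_, rfl⟩
  have hd : E.natDegree = 2 * N + 2 := by rw [hE, natDegree_finsetProd_X_sub_C_eq_card, hc]
  have h5 : (2 : ZMod p) ≠ 0 := fun h => by
    have := Nat.le_of_dvd two_pos ((ZMod.natCast_eq_zero_iff 2 p).1 h); omega
  have p1 : ∏ a : (ZMod p)ˣ, ψ a = 1 := by
    have h6 := Equiv.prod_comp (Equiv.mulLeft (Units.mk0 2 h5)) fun a : (ZMod p)ˣ => ψ a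
    simp only [Equiv.coe_mulLeft, Units.val_mul, Units.val_mk0, two_mul,
      AddChar.map_add_eq_mul, prod_mul_distrib] at h6
    exact mul_left_cancel₀ (prod_ne_zero_iff.2 fun a _ => (ψ.val_isUnit _).ne_zero)
      (h6.trans (mul_one _).symm)
  have p2 : ∏ a, r a = -1 := by
    simp only [hr, prod_mul_distrib, p1, mul_one, ← map_prod, ← Units.coe_prod,
      FiniteField.prod_univ_units_id_eq_neg_one, Units.val_neg, Units.val_one, hm]
  have p3 : ∀ a, r (-a) * r a = -1 := fun a => by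
    have h5 : ψ (-a) * ψ a = 1 := by rw [← AddChar.map_add_eq_mul]; simp
    have h6 : χ (-a) = -χ a := by rw [← neg_one_mul, map_mul, hm, neg_one_mul]
    simp only [hr, Units.val_neg, h6]
    linear_combination (-ψ (-a) * ψ a) * h3 a - h5
  have p4 : E = -∏ a, (1 + C (r a) * X) := by
    have : E * C (∏ a, r a) = ∏ a, (1 + C (r a) * X) := by
      rw [hE, ← Equiv.prod_comp (Equiv.neg _) fun a => X - C (r a), map_prod, ← prod_mul_distrib]
      refine prod_congr rfl fun a _ => ?_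
      rw [Equiv.neg_apply, sub_mul, ← C_mul, p3]
      simp; ring
    rw [← this, p2]; simp
  have s1 : ∑ a, r a = gaussSum χ ψ := by
    simp only [hr]
    rw [units_sum fun a => χ a * ψ a, MulChar.map_zero, zero_mul, sub_zero, gaussSum]
  have s2 : ∑ a, r a ^ 2 = -1 := by
    have : ∀ a, r a ^ 2 = ψ (a * 2) := fun a => by
      rw [hr, mul_two, AddChar.map_add_eq_mul]; linear_combination (ψ a * ψ a) * h3 a
    simp only [this]
    rw [units_sum fun a => ψ (a * 2), AddChar.sum_mulShift _ hψ, if_neg h5]; simp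
  have s3 : ∑ a, r a ^ 3 = χ 3 * gaussSum χ ψ := by
    have : ∀ a, r a ^ 3 = χ a * ψ (a * 3) := fun a => by
      rw [hr, show (a : ZMod p) * 3 = a + a + a by ring, AddChar.map_add_eq_mul,
        AddChar.map_add_eq_mul]
      linear_combination (χ a * ψ a ^ 3) * h3 a
    simp only [this]
    rw [units_sum fun a => χ a * ψ (a * 3), four h1 h2, MulChar.map_zero]; simp
  have hg := gaussSum_sq h1 h2 hψ
  rw [hm, ZMod.card] at hg
  obtain ⟨c0, c1, c2, c3⟩ := low univ r
  rw [s1] at c1 c2 c3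
  rw [s2] at c2 c3
  rw [s3] at c3
  have e1 := eval_split (m := N + 2) (E := E) (by omega) (mul_one 1) 1
  have e2 := eval_split (m := N + 2) (E := E) (by omega) (u := -1) (by simp) 1
  have e3 : E.eval (1 * 1) = -E.eval (-1 * 1) := by
    have h7 := prod_neg (s := univ) fun a => -1 - r a
    rw [hc, (show Even (2 * N + 2) from ⟨N + 1, by ring⟩).neg_one_pow, one_mul] at h7
    nth_rw 1 [p4]
    simp only [hE, eval_neg, eval_prod, eval_sub, eval_X, eval_C, mul_one, ← h7, eval_add,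
      eval_mul, eval_one]
    exact congrArg _ (prod_congr rfl fun a _ => by ring)
  have e4 : E.eval (1 * 1) ^ 2 = -p := by
    have h7 : ∏ a, (1 - r a) * (1 + r a) = ∏ a : (ZMod p)ˣ, (1 - ψ a) := by
      rw [← Equiv.prod_comp (Equiv.mulRight (Units.mk0 2 h5)) fun a : (ZMod p)ˣ => 1 - ψ a]
      refine prod_congr rfl fun a _ => ?_
      simp only [Equiv.coe_mulRight, Units.val_mul, Units.val_mk0, mul_two, AddChar.map_add_eq_mul,
        hr]
      linear_combination (-ψ a * ψ a) * h3 a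
    have h8 : IsPrimitiveRoot (ψ 1) (2 * N + 2 + 1) := by
      rw [show 2 * N + 2 + 1 = p by omega]
      have h9 : ψ 1 ^ p = 1 := by rw [← AddChar.map_nsmul_eq_pow]; simp
      have := IsPrimitiveRoot.orderOf (ψ 1)
      rwa [orderOf_eq_prime h9 fun h => one_ne_zero ((hψ.zmod_char_eq_one_iff p 1).1 h)] at this
    have h9 : ∏ a : (ZMod p)ˣ, (1 - ψ a) = p := by
      rw [show (p : ℂ) = (2 * N + 2 : ℕ) + 1 by rw [hp]; push_cast; ring,
        ← h8.prod_one_sub_pow_eq_order]
      symm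
      have h10 : ∀ k ∈ range (2 * N + 2), ((k + 1 : ℕ) : ZMod p) ≠ 0 := fun k hk h => by
        have := Nat.le_of_dvd k.succ_pos ((ZMod.natCast_eq_zero_iff _ p).1 h)
        have := mem_range.1 hk
        omega
      refine prod_bij (fun k hk => Units.mk0 _ (h10 k hk)) (by simp) (fun a ha b hb h => ?_)
        (fun b _ => ?_) fun k _ => by simp [← AddChar.map_nsmul_eq_pow]
      · have := (ZMod.natCast_eq_natCast_iff' _ _ _).1 (congrArg Units.val h)
        rw [Nat.mod_eq_of_lt (by have := mem_range.1 ha; omega),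
          Nat.mod_eq_of_lt (by have := mem_range.1 hb; omega)] at this
        omega
      · have b1 := (b : ZMod p).val_lt
        have b2 := (ZMod.val_ne_zero _).2 b.ne_zero
        refine ⟨(b : ZMod p).val - 1, mem_range.2 (by omega), Units.ext ?_⟩
        rw [Units.val_mk0, Nat.sub_add_cancel (by omega), ZMod.natCast_zmod_val]
    rw [sq, ← h9, ← h7, prod_mul_distrib]
    nth_rw 2 [p4]
    simp [hE, eval_prod]
  simp only [mul_one, one_pow, one_mul] at e1 e2 e3 e4
  refine ⟨fun l => E.coeff (2 * l), fun l => E.coeff (2 * l + 1), by simp [p4, c0],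
    by simp [p4, c1], ?_, ?_, ?_, ?_, ?_, fun l hl => coeff_eq_zero_of_natDegree_lt (by omega),
    fun a => ?_⟩
  · simp only [p4, coeff_neg]; linear_combination -c2 - hg
  · simp only [p4, coeff_neg]; linear_combination -c3 - gaussSum χ ψ * hg
  · rw [← e4]; congr 1; linear_combination (-1 / 2 : ℂ) * (e1 + e3 - e2)
  · have : E.Monic := hE ▸ monic_prod_of_monic _ _ fun a _ => monic_X_sub_C _
    exact (congrArg E.coeff (show 2 * (N + 1) = E.natDegree by omega)).trans this.coeff_natDegree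
  · have := prod_X_sub_C_coeff_card_pred univ r (by omega)
    rw [hc, ← hE, s1] at this
    exact this
  · by_cases ha : a = 0
    · simp only [ha, AddChar.map_zero_eq_one, MulChar.map_zero, one_pow, mul_one, zero_mul,
        add_zero]
      linear_combination (-1 / 2 : ℂ) * (e1 - e3 + e2)
    · refine (eval_split (E := E) (by omega) (h3 (Units.mk0 a ha)) _).symm.trans ?_
      rw [hE, eval_prod]
      exact prod_eq_zero (mem_univ (Units.mk0 a ha)) (by simp [hr])

lemma sol (p : ℕ) [Fact p.Prime] (N : ℕ) (hp : p = 2 * N + 3) (h4 : p % 4 = 3) :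
    ∃ v : ℕ → ℂ, 9 * v 0 ^ 2 = (p - 3 + legendreSym p 3) ^ 2 ∧
      ∀ k < N, ∑ i ∈ range N, v i * legendreSym p (i - (k : ℕ)) = 1 := by
  have hr : ringChar (ZMod p) ≠ 2 := by rw [ZMod.ringChar_zmod_n]; omega
  obtain ⟨χ, hχ⟩ : ∃ χ : MulChar (ZMod p) ℂ,
    χ = (quadraticChar (ZMod p)).ringHomComp (Int.castRingHom ℂ) := ⟨_, rfl⟩
  have hl : ∀ k : ℤ, χ k = legendreSym p k := fun k => by rw [hχ]; rfl
  have h1 : χ ≠ 1 := hχ ▸ (MulChar.ringHomComp_ne_one_iff (RingHom.injective_int _)).2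
    (quadraticChar_ne_one hr)
  have h2 : χ.IsQuadratic := hχ ▸ (quadraticChar_isQuadratic _).comp _
  have l1 : legendreSym p (-1) = -1 := by
    rw [legendreSym.at_neg_one (by omega), ZMod.χ₄_nat_three_mod_four h4]
  have hm : χ (-1) = -1 := by simpa [l1] using hl (-1)
  have hψ := ZMod.isPrimitive_stdAddChar p
  obtain ⟨ev, od, a0, a1, a2, a3, a4, e1, e2, e3, H⟩ := poly2 N hp h1 h2 hm hψ
  have hg := gaussSum_sq h1 h2 hψ
  have R := rel h1 h2 hψ _ ev od H
  rw [hm, ZMod.card] at hg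
  generalize gaussSum χ ZMod.stdAddChar = τ at *
  have hp0 : (p : ℂ) ≠ 0 := Nat.cast_ne_zero.2 (by omega)
  have hτ : τ ≠ 0 := fun h => hp0 (by simpa [h] using hg)
  have h3 : χ 2 * χ 2 = 1 := by
    have h5 : (2 : ZMod p) ≠ 0 := fun h => by
      have := Nat.le_of_dvd two_pos ((ZMod.natCast_eq_zero_iff 2 p).1 h); omega
    rcases h2 2 with h | h | h
    · exact absurd (h ▸ (IsUnit.mk0 _ h5).map χ) not_isUnit_zero
    all_goals simp [h]
  have dv : ∀ x : ℤ, -(p : ℤ) < 2 * x + 1 → 2 * x + 1 < p → (2 * x + 1 : ZMod p) ≠ 0 :=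
    fun x a b h => by
      have := Int.eq_zero_of_abs_lt_dvd ((ZMod.intCast_zmod_eq_zero_iff_dvd (2 * x + 1) p).1
        (by exact_mod_cast h)) (abs_lt.2 ⟨a, b⟩)
      omega
  obtain ⟨κ, hκ⟩ : ∃ κ, κ = (∑ l ∈ range (N + 2), od l) * χ 2 / τ := ⟨_, rfl⟩
  have k1 : κ * κ = 1 := by
    rw [hκ]; field_simp
    linear_combination (χ 2 * χ 2) * a4 - p * h3 - hg
  have r1 : ∀ j : ℤ, 0 ≤ j → j ≤ N + 1 → ∑ l ∈ range (N + 2), ev l * legendreSym p (l - j) = κ :=
    fun j j0 j1 => by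
    have := (R (2 * j)).2
    rw [sum_eq_zero (s := range (N + 2)) (f := fun l => od l * ite _ _ _) fun l hl => by
      rcases (Nat.lt_succ_iff.1 (mem_range.1 hl)).eq_or_lt with rfl | h
      · simp [e3]
      · rw [if_neg, mul_zero]
        convert dv (l - j) (by omega) (by omega) using 2
        push_cast; ring, add_zero] at this
    rw [hκ, ← this, eq_div_iff hτ, sum_mul, sum_mul]
    refine sum_congr rfl fun l _ => ?_
    rw [← mul_sub, map_mul, ← hl]
    push_cast
    linear_combination (-ev l * χ (l - j) * τ) * h3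
  have r2 : ∀ j : ℤ, 0 ≤ j → j ≤ N → ∑ l ∈ range (N + 1), od l / τ * legendreSym p (l - j) = 0 :=
    fun j j0 j1 => by
    have := (R (2 * j + 1)).1
    rw [sum_range_succ (fun l => od l * _) (N + 1), e3 _ (Nat.lt_succ_self N), zero_mul,
      add_zero, sum_eq_zero (s := range (N + 2)) (f := fun l => ev l * ite _ _ _)
        fun l hl => by
          rw [if_neg, mul_zero]
          have := mem_range.1 hl
          convert dv (l - j - 1) (by omega) (by omega) using 2
          push_cast; ring, zero_add] at this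
    refine mul_left_cancel₀ (mul_ne_zero (left_ne_zero_of_mul_eq_one h3) (mul_ne_zero hτ hτ))
      (Eq.trans ?_ (this.trans (mul_zero _).symm))
    rw [mul_sum]
    refine sum_congr rfl fun l _ => ?_
    rw [add_sub_add_right_eq_sub, ← mul_sub, map_mul, ← hl]
    push_cast
    field_simp
  refine ⟨fun i => κ * (ev (i + 1) - od (i + 1) / τ + od i / τ), ?_, fun k hk => ?_⟩
  · have h5 : od 1 / τ = (p - 3 - 2 * χ 3) / 6 := by field_simp; linear_combination a3
    have h6 : (legendreSym p 3 : ℂ) = χ 3 := by simpa using (hl 3).symm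
    dsimp only
    rw [zero_add, h5, a1, neg_div, div_self hτ, h6, show ev 1 = (p - 1) / 2 by
      linear_combination a2 / 2]
    linear_combination (p - 3 + χ 3) ^ 2 * k1
  · have b1 := r1 (k + 1) (by omega) (by omega)
    have b2 := r2 (k + 1) (by omega) (by omega)
    have b3 := r2 k (by omega) (by omega)
    rw [sum_range_succ, sum_range_succ', e1, a0] at b1
    rw [sum_range_succ', a1, neg_div, div_self hτ] at b2
    rw [sum_range_succ, e2, neg_div, div_self hτ] at b3
    push_cast at b1 b2 b3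
    simp only [add_sub_add_right_eq_sub] at b1 b2
    simp only [mul_assoc, ← mul_sum, sub_mul, add_mul, sum_add_distrib, sum_sub_distrib]
    linear_combination κ * (b1 - b2 + b3) + k1

lemma minor {n : ℕ} (M : Matrix (Fin (n + 1)) (Fin (n + 1)) ℂ) (h : ∀ j k, M k j = -M j k)
    (hd : M.det = 1) (v : Fin (n + 1) → ℂ) (hv : ∀ k, ∑ i, v i * M i k = 1) (x : ℂ) :
    (Matrix.of fun j k : Fin n => x + M j.succ k.succ).det = v 0 ^ 2 * x := by
  have sk : ∀ u w : Fin (n + 1) → ℂ, u ⬝ᵥ M.mulVec w = -(w ⬝ᵥ M.mulVec u) := fun u w => by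
    simp only [dotProduct, Matrix.mulVec, mul_sum, ← sum_neg_distrib]
    rw [sum_comm]
    exact sum_congr rfl fun j _ => sum_congr rfl fun k _ => by rw [h]; ring
  have h1 : M.mulVec v = fun _ => -1 := by
    funext k
    simp only [← hv k, Matrix.mulVec, dotProduct, ← sum_neg_distrib]
    exact sum_congr rfl fun i _ => by rw [h]; ring
  obtain ⟨u, hu⟩ : ∃ u, M.mulVec u = Pi.single 0 1 :=
    ⟨M.adjugate.mulVec (Pi.single 0 1), by
      rw [Matrix.mulVec_mulVec, Matrix.mul_adjugate, hd, one_smul, Matrix.one_mulVec]⟩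
  have s1 := sk v v
  have s2 := sk u u
  have s3 := sk u v
  simp only [h1, hu, dotProduct_single, mul_one, dotProduct, mul_neg, sum_neg_distrib] at s1 s3
  simp only [hu, dotProduct_single, mul_one] at s2
  have t1 : ∑ i, v i = 0 := by linear_combination (-1 / 2 : ℂ) * s1
  have t2 : u 0 = 0 := by linear_combination (1 / 2 : ℂ) * s2
  have t3 : ∑ i, u i = v 0 := by simpa [Pi.single_apply] using s3
  obtain ⟨A, hA⟩ : ∃ A, A = Matrix.of fun j k => x + M j k := ⟨_, rfl⟩
  have hA1 : A = M * (1 + Matrix.replicateCol Unit (-x • v) *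
      Matrix.replicateRow Unit fun _ => (1 : ℂ)) := by
    rw [Matrix.mul_add, Matrix.mul_one, ← Matrix.mul_assoc, ← Matrix.replicateCol_mulVec,
      Matrix.mulVec_smul, h1, hA]
    ext j k
    simp [Matrix.mul_apply, add_comm]
  have hA2 : A.det = 1 := by
    rw [hA1, Matrix.det_mul, Matrix.det_one_add_replicateCol_mul_replicateRow, hd]
    simp [dotProduct, ← mul_sum, t1]
  have hA3 : A.mulVec (u + (x * v 0) • v) = Pi.single 0 1 := by
    have : ∀ w, A.mulVec w = M.mulVec w + fun _ => x * ∑ i, w i := fun w => by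
      funext j
      simp [hA, Matrix.mulVec, dotProduct, add_mul, sum_add_distrib, mul_sum, add_comm]
    rw [this, Matrix.mulVec_add, Matrix.mulVec_smul, hu, h1]
    funext j
    simp [sum_add_distrib, ← mul_sum, t1, t3]
  have h2 := congrFun (congrArg A.adjugate.mulVec hA3) 0
  rw [Matrix.mulVec_mulVec, Matrix.adjugate_mul, hA2, one_smul, Matrix.one_mulVec,
    Matrix.mulVec_single_one, Matrix.col_apply, Matrix.adjugate_fin_succ_eq_det_submatrix] at h2
  simp only [Pi.add_apply, t2, Pi.smul_apply, smul_eq_mul, Fin.val_zero, add_zero, pow_zero,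
    one_mul, Fin.succAbove_zero, hA] at h2
  refine Eq.trans ?_ (h2.symm.trans (by ring))
  rfl

end Pool.Agent.H.MP_0c110c_nt
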